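import Pool.Agent.Q167.BP.Defs
import Pool.Agent.Q167.BP.Conv

set_option autoImplicit false

open AddCircle MeasureTheory Pool.Agent.Q167.BP

namespace Pool.Agent.Results.MP_a0f451_an.BoundedDensity

/-- Let `ν` be an analytic functional on the unit circle and `C` a real number. The biharmonic Poisson transform `f`
of `ν` satisfies `|f(z)| ≤ C (1 + R(z))` on the unit disk if and only if `ν` is given by a measurable density `φ`
with `|φ| ≤ C`. -/
theorem result (ν : ℤ → ℂ) (hν : IsAnalyticFunctional ν) (C : ℝ) :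
    (∀ z : ℂ, ‖z‖ < 1 → ‖transform ν z‖ ≤ C * (1 + hypDist z)) ↔
      ∃ φ : UnitAddCircle → ℂ, Measurable φ ∧ (∀ x, ‖φ x‖ ≤ C) ∧ (∀ n : ℤ, ν n = fourierCoeff φ n) ∧
        ∀ g : ℂ → ℂ, Continuous (fun x : UnitAddCircle => g (pt x)) → Summable (coef g) →
          pairing ν g = ∫ x, g (pt x) * φ x ∂haarAddCircle := by
  constructor
  · intro h
    obtain ⟨φ, h1, h2, h3⟩ := main hν C h
    exact ⟨φ, h1, h2, h3, fun g hg hs => pairing_eq h1 h2 h3 g hg hs⟩
  · rintro ⟨φ, h1, h2, h3, -⟩ z hz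
    have hC0 : 0 ≤ C := (norm_nonneg _).trans (h2 0)
    refine (conv h1 h2 h3 z hz).trans ?_
    nlinarith

end Pool.Agent.Results.MP_a0f451_an.BoundedDensity
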